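import Mathlib

/-!
# MP_dec24c_co : bad pairs in geodesic-ray orientations and strong metric dimension

If a connected graph `G` has a finite strong resolving set, then for a suitable nonempty finite
`W` the orientation `G_W` has no bad pair.  Hence, if every nonempty finite `W` yields a bad pair,
then `β_S(G) = ∞`.
-/

namespace Pool.Agent.Results.MP_dec24c_co.BadPairs

open SimpleGraph Relation

universe u

/-- `R` is a geodesic ray: the vertices `R 0, R 1, ...` are distinct, consecutive ones adjacent,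
and each subpath `R i ... R j` is a shortest path. -/
structure IsGeodesicRay {V : Type u} (G : SimpleGraph V) (R : ℕ → V) : Prop where
  inj : Function.Injective R
  adj : ∀ n, G.Adj (R n) (R (n + 1))
  geo : ∀ i j, i ≤ j → G.dist (R i) (R j) = j - i

/-- A geodesic `W`-ray: a geodesic ray whose initial vertex lies in `W`. -/
def IsWRay {V : Type u} (G : SimpleGraph V) (W : Set V) (R : ℕ → V) : Prop :=
  IsGeodesicRay G R ∧ R 0 ∈ W

/-- In `G_W` the edge `ab` is directed `a → b`: some geodesic `W`-ray contains both `a` and `b`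
and every geodesic `W`-ray containing both traverses the edge from `a` to `b`. -/
def Directed {V : Type u} (G : SimpleGraph V) (W : Set V) (a b : V) : Prop :=
  G.Adj a b ∧ (∃ R, IsWRay G W R ∧ a ∈ Set.range R ∧ b ∈ Set.range R) ∧
    ∀ R, IsWRay G W R → a ∈ Set.range R → b ∈ Set.range R → ∃ i, R i = a ∧ R (i + 1) = b

/-- The edge `ab` may be traversed from `a` to `b` in `G_W`: it is undirected or directed
`a → b`. -/
def Traversable {V : Type u} (G : SimpleGraph V) (W : Set V) (a b : V) : Prop :=
  G.Adj a b ∧ (Directed G W a b ∨ (¬ Directed G W a b ∧ ¬ Directed G W b a))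

/-- `G_W` has a path from `a` to `b`: a path of `G` (distinct vertices) each step of which is
traversable. -/
def HasPath {V : Type u} (G : SimpleGraph V) (W : Set V) (a b : V) : Prop :=
  ∃ p : G.Walk a b, p.IsPath ∧ ∀ d ∈ p.darts, Traversable G W d.fst d.snd

/-- A bad pair of `G_W`. -/
def BadPair {V : Type u} (G : SimpleGraph V) (W : Set V) (a b : V) : Prop :=
  a ≠ b ∧ ¬ HasPath G W a b ∧ ¬ HasPath G W b a

/-- `w` strongly resolves `a, b`. -/
def StronglyResolves {V : Type u} (G : SimpleGraph V) (w a b : V) : Prop :=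
  G.dist w b = G.dist w a + G.dist a b ∨ G.dist w a = G.dist w b + G.dist b a

/-- `S` is a strong resolving set. -/
def IsStrongResolvingSet {V : Type u} (G : SimpleGraph V) (S : Set V) : Prop :=
  ∀ a b, a ≠ b → ∃ w ∈ S, StronglyResolves G w a b

/-- The strong metric dimension `β_S(G)` (`⊤` when no finite strong resolving set exists). -/
noncomputable def strongMetricDim {V : Type u} (G : SimpleGraph V) : ℕ∞ :=
  ⨅ S : {S : Set V // IsStrongResolvingSet G S}, (S : Set V).encard

section core

variable {V : Type u} {G : SimpleGraph V}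

theorem exists_nbr (hG : G.Connected) {x y : V} {n : ℕ} (h : G.dist x y = n + 1) :
    ∃ x', G.Adj x x' ∧ G.dist x' y = n := by
  obtain ⟨p, hp⟩ := hG.exists_walk_length_eq_dist x y
  cases p with
  | nil => simp at h
  | @cons _ v _ hadj q =>
    refine ⟨v, hadj, ?_⟩
    have h1 : q.length = n := by
      rw [Walk.length_cons] at hp; omega
    have h2 := dist_le q
    have h3 := hG.dist_triangle (u := x) (v := v) (w := y)
    have h4 : G.dist x v = 1 := dist_eq_one_iff_adj.mpr hadj
    omega

theorem geo_induct (hG : G.Connected) {s : V} (P : V → Prop) (y : V) :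
    ∀ (n : ℕ) (x : V), G.dist x y = n → G.dist s y = G.dist s x + n → P x →
      (∀ a b, P a → G.Adj a b → G.dist s b = G.dist s a + 1 → G.dist s x ≤ G.dist s a → P b) →
      P y := by
  intro n
  induction n with
  | zero =>
    intro x h _ hP _
    have := (hG.dist_eq_zero_iff).1 h
    subst this; exact hP
  | succ n ih =>
    intro x h h1 hP step
    obtain ⟨x', hadj, hd⟩ := exists_nbr hG h
    have h2 := hG.dist_triangle (u := s) (v := x') (w := y)
    have h3 := hG.dist_triangle (u := s) (v := x) (w := x')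
    have h4 : G.dist x x' = 1 := dist_eq_one_iff_adj.mpr hadj
    have h5 : G.dist s x' = G.dist s x + 1 := by omega
    exact ih x' hd (by omega) (step x x' hP hadj h5 le_rfl)
      (fun a b ha hab hs hle => step a b ha hab hs (by omega))

theorem exists_between (hG : G.Connected) (y : V) : ∀ (k n : ℕ) (x : V), G.dist x y = n → k ≤ n →
    ∃ z, G.dist x z = k ∧ G.dist z y = n - k := by
  intro k
  induction k with
  | zero => intro n x h _; exact ⟨x, by simp, by simpa using h⟩
  | succ k ih =>
    intro n x h hk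
    obtain ⟨m, rfl⟩ : ∃ m, n = m + 1 := ⟨n - 1, by omega⟩
    obtain ⟨x', hadj, hd⟩ := exists_nbr hG h
    obtain ⟨z, hz1, hz2⟩ := ih m x' hd (by omega)
    have h3 := hG.dist_triangle (u := x) (v := x') (w := z)
    have h4 : G.dist x x' = 1 := dist_eq_one_iff_adj.mpr hadj
    have h5 := hG.dist_triangle (u := x) (v := z) (w := y)
    exact ⟨z, by omega, by omega⟩

theorem ray_of (hG : G.Connected) (s : V) (f : ℕ → V) (hadj : ∀ i, G.Adj (f i) (f (i + 1)))
    (hs : ∀ i, G.dist s (f i) = G.dist s (f 0) + i) : IsGeodesicRay G f := by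
  have hle : ∀ i n, G.dist (f i) (f (i + n)) ≤ n := by
    intro i n
    induction n with
    | zero => simp
    | succ n ih =>
      have h3 := hG.dist_triangle (u := f i) (v := f (i + n)) (w := f (i + n + 1))
      have h4 : G.dist (f (i + n)) (f (i + n + 1)) = 1 := dist_eq_one_iff_adj.mpr (hadj _)
      show G.dist (f i) (f (i + n + 1)) ≤ n + 1
      omega
  refine ⟨?_, hadj, ?_⟩
  · intro i j hij
    have h1 := hs i
    have h2 := hs j
    rw [hij] at h1
    omega
  · intro i j hij
    obtain ⟨n, rfl⟩ := Nat.exists_eq_add_of_le hij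
    have h1 := hs i
    have h2 := hs (i + n)
    have h3 := hG.dist_triangle (u := s) (v := f i) (w := f (i + n))
    have h4 := hle i n
    omega

theorem trav_iff {W : Set V} {a b : V} :
    Traversable G W a b ↔ G.Adj a b ∧ ¬ Directed G W b a := by
  constructor
  · rintro ⟨h, h1 | h1⟩
    · refine ⟨h, fun h2 => ?_⟩
      obtain ⟨R, hR, ha, hb⟩ := h1.2.1
      obtain ⟨i, hi, hi'⟩ := h1.2.2 R hR ha hb
      obtain ⟨j, hj, hj'⟩ := h2.2.2 R hR hb ha
      have e1 := hR.1.inj (hi.trans hj'.symm)
      have e2 := hR.1.inj (hi'.trans hj.symm)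
      omega
    · exact ⟨h, h1.2⟩
  · rintro ⟨h, h1⟩
    by_cases h2 : Directed G W a b
    · exact ⟨h, Or.inl h2⟩
    · exact ⟨h, Or.inr ⟨h2, h1⟩⟩

theorem hasPath_of {W : Set V} {a b : V} (h : ReflTransGen (Traversable G W) a b) :
    HasPath G W a b := by
  classical
  have : ∃ p : G.Walk a b, ∀ d ∈ p.darts, Traversable G W d.fst d.snd := by
    induction h with
    | refl => exact ⟨Walk.nil, by simp⟩
    | @tail b c _ hbc ih =>
      obtain ⟨p, hp⟩ := ih
      refine ⟨p.concat hbc.1, ?_⟩
      intro d hd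
      rw [Walk.darts_concat] at hd
      simp only [List.concat_eq_append, List.mem_append, List.mem_singleton] at hd
      rcases hd with hd | hd
      · exact hp d hd
      · subst hd; exact hbc
  obtain ⟨p, hp⟩ := this
  exact ⟨p.bypass, p.bypass_isPath, fun d hd => hp d (p.darts_bypass_subset_darts hd)⟩

/-- a step crossed by a `W`-ray is traversable in that direction -/
theorem trav_of_cross {W : Set V} {R : ℕ → V} (hR : IsWRay G W R) (i : ℕ) :
    Traversable G W (R i) (R (i + 1)) := by
  rw [trav_iff]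
  refine ⟨hR.1.adj i, fun h => ?_⟩
  obtain ⟨j, hj, hj'⟩ := h.2.2 R hR ⟨i + 1, rfl⟩ ⟨i, rfl⟩
  have e1 := hR.1.inj hj
  have e2 := hR.1.inj hj'
  omega

/-- a blocked step is crossed backwards by some `W`-ray -/
theorem cross_of_not_trav {W : Set V} {a b : V} (hab : G.Adj a b) (h : ¬ Traversable G W a b) :
    ∃ R, IsWRay G W R ∧ ∃ i, R i = b ∧ R (i + 1) = a := by
  rw [trav_iff] at h
  have h1 : Directed G W b a := by
    by_contra h2; exact h ⟨hab, h2⟩
  obtain ⟨R, hR, ha, hb⟩ := h1.2.1
  obtain ⟨i, hi⟩ := h1.2.2 R hR ha hb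
  exact ⟨R, hR, i, hi⟩

end core

section main

variable {V : Type u} {G : SimpleGraph V} (hG : G.Connected) {S : Finset V}
  (hS : IsStrongResolvingSet G (S : Set V))

include hG hS

theorem ext_S {x y : V} (h : ∀ s ∈ S, G.dist s x = G.dist s y) : x = y := by
  by_contra hne
  obtain ⟨s, hs, h1⟩ := hS x y hne
  have h2 := h s (by simpa using hs)
  have h3 : G.dist x y ≠ 0 := fun h0 => hne ((hG.dist_eq_zero_iff).1 h0)
  have h4 : G.dist y x = G.dist x y := dist_comm
  rcases h1 with h1 | h1 <;> omega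

omit hG in
theorem adj_S {x y : V} (hne : S.Nonempty) (h : ∀ s ∈ S, G.dist s y = G.dist s x + 1) :
    G.Adj x y := by
  have hxy : x ≠ y := by
    rintro rfl
    obtain ⟨s, hs⟩ := hne
    have := h s hs; omega
  obtain ⟨s, hs, h1⟩ := hS x y hxy
  have h2 := h s (by simpa using hs)
  rw [← dist_eq_one_iff_adj]
  rcases h1 with h1 | h1 <;> omega

theorem ray_forward {R : ℕ → V} (hR : IsGeodesicRay G R) :
    ∃ s ∈ S, ∀ i, G.dist s (R i) = G.dist s (R 0) + i := by
  by_contra hcon
  push Not at hcon
  have hup : ∀ s i n, G.dist s (R (i + n)) ≤ G.dist s (R i) + n := by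
    intro s i n
    have h3 := hG.dist_triangle (u := s) (v := R i) (w := R (i + n))
    have h4 := hR.geo i (i + n) (by omega)
    omega
  choose! f hf using hcon
  let k := S.sup f + S.sup (fun s => G.dist s (R 0)) + 1
  have hk0 : (0 : ℕ) ≤ k := Nat.zero_le _
  have hne : R 0 ≠ R k := fun h => by
    have := hR.inj h
    omega
  obtain ⟨s, hs, h1⟩ := hS _ _ hne
  have hs' : s ∈ S := by simpa using hs
  have e1 : f s ≤ S.sup f := Finset.le_sup hs'
  have e2 : G.dist s (R 0) ≤ S.sup (fun s => G.dist s (R 0)) :=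
    Finset.le_sup (f := fun s => G.dist s (R 0)) hs'
  have e3 := hup s 0 (f s)
  rw [Nat.zero_add] at e3
  have e4 := hf s hs'
  have e5 := hup s (f s) (k - f s)
  have e6 : f s + (k - f s) = k := by omega
  rw [e6] at e5
  have e7 := hR.geo 0 k hk0
  have e8 : G.dist (R k) (R 0) = G.dist (R 0) (R k) := dist_comm
  rcases h1 with h1 | h1 <;> omega

/-- `x` starts a rail: all shifts of `x` by the all-ones vector are vertices. -/
def Rail (G : SimpleGraph V) (S : Finset V) (x : V) : Prop :=
  ∀ k : ℕ, ∃ y, ∀ s ∈ S, G.dist s y = G.dist s x + k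

omit hS in
theorem exists_D {s0 : V} {C : ℕ} (hC : ∀ s ∈ S, G.dist s s0 ≤ C) :
    ∃ D : V → (S → Fin (2 * C + 1)), ∀ x (s : S),
      (D x s : ℕ) + G.dist s0 x = G.dist (s : V) x + C := by
  have key : ∀ x (s : S), G.dist s0 x ≤ G.dist (s : V) x + C ∧
      G.dist (s : V) x ≤ G.dist s0 x + C := by
    intro x s
    have h1 := hC s s.2
    have h2 : G.dist s0 (s : V) = G.dist (s : V) s0 := dist_comm
    have h3 := hG.dist_triangle (u := s0) (v := (s : V)) (w := x)
    have h4 := hG.dist_triangle (u := (s : V)) (v := s0) (w := x)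
    omega
  refine ⟨fun x s => ⟨G.dist (s : V) x + C - G.dist s0 x, ?_⟩, ?_⟩
  · have := key x s; omega
  · intro x s
    have := key x s
    show G.dist (s : V) x + C - G.dist s0 x + G.dist s0 x = _
    omega

theorem D_inj {s0 : V} {C : ℕ} {D : V → (S → Fin (2 * C + 1))}
    (hD : ∀ x (s : S), (D x s : ℕ) + G.dist s0 x = G.dist (s : V) x + C) {x y : V}
    (h : D x = D y) (hl : G.dist s0 x = G.dist s0 y) : x = y := by
  apply ext_S hG hS
  intro s hs
  have h1 := hD x ⟨s, hs⟩
  have h2 := hD y ⟨s, hs⟩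
  rw [h] at h1
  simp only at h1 h2
  omega

theorem exists_L0 {s0 : V} {C : ℕ} {D : V → (S → Fin (2 * C + 1))}
    (hD : ∀ x (s : S), (D x s : ℕ) + G.dist s0 x = G.dist (s : V) x + C) :
    ∃ L0, ∀ x, L0 ≤ G.dist s0 x → Rail G S x := by
  by_contra hcon
  push Not at hcon
  choose f hf1 hf2 using hcon
  obtain ⟨v, hv⟩ := Finite.exists_infinite_fiber (fun n : ℕ => D (f n))
  have hinf : (((fun n : ℕ => D (f n)) ⁻¹' {v}) : Set ℕ).Infinite := Set.infinite_coe_iff.1 hv
  obtain ⟨n1, hn1⟩ := hinf.nonempty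
  apply hf2 n1
  intro k
  obtain ⟨n2, hn2, hn3⟩ := hinf.exists_gt (G.dist s0 (f n1) + k)
  have hDD : D (f n1) = D (f n2) := by
    rw [Set.mem_preimage, Set.mem_singleton_iff] at hn1 hn2
    exact hn1.trans hn2.symm
  have hle := hf1 n2
  obtain ⟨m, hm⟩ : ∃ m, G.dist s0 (f n2) = G.dist s0 (f n1) + m :=
    ⟨G.dist s0 (f n2) - G.dist s0 (f n1), by omega⟩
  have hall : ∀ s ∈ S, G.dist s (f n2) = G.dist s (f n1) + m := by
    intro s hs
    have h1 := hD (f n1) ⟨s, hs⟩
    have h2 := hD (f n2) ⟨s, hs⟩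
    rw [hDD] at h1
    simp only at h1 h2
    omega
  have hkm : k < m := by omega
  have hne : f n1 ≠ f n2 := by
    intro h
    rw [h] at hm
    omega
  have hdist : G.dist (f n1) (f n2) = m := by
    obtain ⟨s, hs, h1⟩ := hS _ _ hne
    have h2 := hall s (by simpa using hs)
    have h3 : G.dist (f n1) (f n2) ≠ 0 := fun h0 => hne ((hG.dist_eq_zero_iff).1 h0)
    have h4 : G.dist (f n2) (f n1) = G.dist (f n1) (f n2) := dist_comm
    rcases h1 with h1 | h1 <;> omega
  obtain ⟨z, hz1, hz2⟩ := exists_between hG (f n2) k m (f n1) hdist (by omega)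
  refine ⟨z, fun s hs => ?_⟩
  have h1 := hall s hs
  have h2 := hG.dist_triangle (u := s) (v := f n1) (w := z)
  have h3 := hG.dist_triangle (u := s) (v := z) (w := f n2)
  omega

/-- a forward edge out of (the rail of) a vertex of `W` into a rail vertex is crossed by a
`W`-ray, hence traversable -/
theorem trav_forward {W : Set V} {w x y : V} {k : ℕ} (hw : w ∈ W) (hwr : Rail G S w)
    (hxw : ∀ s ∈ S, G.dist s x = G.dist s w + k) (hy : Rail G S y) (hxy : G.Adj x y)
    {s1 : V} (hs1 : s1 ∈ S) (hf : G.dist s1 y = G.dist s1 x + 1) : Traversable G W x y := by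
  choose rw hrw using hwr
  choose ry hry using hy
  have hne : S.Nonempty := ⟨s1, hs1⟩
  let f : ℕ → V := fun i => if i ≤ k then rw i else ry (i - (k + 1))
  have f0 : f 0 = w := by
    show (if 0 ≤ k then rw 0 else ry (0 - (k + 1))) = w
    rw [if_pos (Nat.zero_le _)]
    exact ext_S hG hS (fun s hs => by simpa using hrw 0 s hs)
  have fk : f k = x := by
    show (if k ≤ k then rw k else ry (k - (k + 1))) = x
    rw [if_pos le_rfl]
    exact ext_S hG hS (fun s hs => by rw [hrw k s hs, hxw s hs])
  have fk1 : f (k + 1) = y := by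
    show (if k + 1 ≤ k then rw (k + 1) else ry (k + 1 - (k + 1))) = y
    rw [if_neg (by omega), Nat.sub_self]
    exact ext_S hG hS (fun s hs => by simpa using hry 0 s hs)
  have hdist : ∀ i, G.dist s1 (f i) = G.dist s1 (f 0) + i := by
    intro i
    rw [f0]
    by_cases hi : i ≤ k
    · have : f i = rw i := if_pos hi
      rw [this]; exact hrw i s1 hs1
    · have : f i = ry (i - (k + 1)) := if_neg hi
      rw [this, hry _ s1 hs1, hf, hxw s1 hs1]
      omega
  have hadj : ∀ i, G.Adj (f i) (f (i + 1)) := by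
    intro i
    rcases Nat.lt_trichotomy i k with hi | hi | hi
    · have e1 : f i = rw i := if_pos hi.le
      have e2 : f (i + 1) = rw (i + 1) := if_pos hi
      rw [e1, e2]
      refine adj_S hS hne (fun s hs => ?_)
      rw [hrw _ s hs, hrw _ s hs]; omega
    · subst hi
      rw [fk, fk1]; exact hxy
    · have e1 : f i = ry (i - (k + 1)) := if_neg (by omega)
      have e2 : f (i + 1) = ry (i + 1 - (k + 1)) := if_neg (by omega)
      rw [e1, e2]
      refine adj_S hS hne (fun s hs => ?_)
      rw [hry _ s hs, hry _ s hs]; omega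
  have hR : IsWRay G W f := ⟨ray_of hG s1 f hadj hdist, by rw [f0]; exact hw⟩
  have := trav_of_cross hR k
  rwa [fk, fk1] at this

/-- rail steps are always traversable upwards -/
theorem trav_rail {W : Set V} {x y : V} (hne : S.Nonempty)
    (h : ∀ s ∈ S, G.dist s y = G.dist s x + 1) : Traversable G W x y := by
  have hadj := adj_S hS hne h
  by_contra hcon
  obtain ⟨R, hR, i, hi, hi'⟩ := cross_of_not_trav hadj hcon
  obtain ⟨s, hs, hs'⟩ := ray_forward hG hS hR.1
  have h1 := hs' i
  have h2 := hs' (i + 1)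
  have h3 := h s hs
  rw [hi] at h1
  rw [hi'] at h2
  omega

/-- the forward step relation at levels at least `N` -/
def FN (G : SimpleGraph V) (S : Finset V) (s0 : V) (N : ℕ) (a b : V) : Prop :=
  G.Adj a b ∧ (∃ s ∈ S, G.dist s b = G.dist s a + 1) ∧ N ≤ G.dist s0 b

theorem build {s0 : V} (hs0 : s0 ∈ S) {C : ℕ} (hC : ∀ s ∈ S, G.dist s s0 ≤ C) {L0 : ℕ}
    (hL0 : ∀ x, L0 ≤ G.dist s0 x → Rail G S x) {x0 : V}
    (hx0 : L0 + 2 * C + 1 ≤ G.dist s0 x0)
    (alt : (∀ z, ReflTransGen (FN G S s0 (L0 + 2 * C + 1)) x0 z →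
        G.dist s0 z ≠ L0 + 2 * C + 1) ∨
      (∀ z, ReflTransGen (FN G S s0 (L0 + 2 * C + 1)) x0 z →
        ReflTransGen (FN G S s0 (L0 + 2 * C + 1)) z x0)) :
    ∃ W : Set V, W.Finite ∧ W.Nonempty ∧ ∀ a x y, ReflTransGen (Traversable G W) a x →
      G.Adj x y → (∃ s ∈ S, G.dist s y = G.dist s x + 1) →
      ReflTransGen (Traversable G W) a y := by
  obtain ⟨D, hD⟩ := exists_D (S := S) hG hC
  have hne : S.Nonempty := ⟨s0, hs0⟩
  have hlevC : ∀ s ∈ S, ∀ x, G.dist s x ≤ G.dist s0 x + C ∧ G.dist s0 x ≤ G.dist s x + C := by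
    intro s hs x
    have h1 := hC s hs
    have h2 : G.dist s0 s = G.dist s s0 := dist_comm
    have h3 := hG.dist_triangle (u := s0) (v := s) (w := x)
    have h4 := hG.dist_triangle (u := s) (v := s0) (w := x)
    omega
  obtain ⟨N, hN⟩ : ∃ N, N = L0 + 2 * C + 1 := ⟨_, rfl⟩
  rw [← hN] at hx0 alt
  let Rr : Set V := {z | ReflTransGen (FN G S s0 N) x0 z}
  have hlev : ∀ z ∈ Rr, N ≤ G.dist s0 z := by
    intro z hz
    rcases ReflTransGen.cases_tail hz with h | ⟨c, _, h⟩
    · rw [h]; exact hx0
    · exact h.2.2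
  have hrail : ∀ z ∈ Rr, Rail G S z := fun z hz => hL0 z (by have := hlev z hz; omega)
  have hstep : ∀ a b, a ∈ Rr → FN G S s0 N a b → b ∈ Rr := fun a b ha hab =>
    ReflTransGen.tail ha hab
  have hup1 : ∀ z z', z ∈ Rr → (∀ s ∈ S, G.dist s z' = G.dist s z + 1) → z' ∈ Rr := by
    intro z z' hz h
    refine hstep z z' hz ⟨adj_S hS hne h, ⟨s0, hs0, h s0 hs0⟩, ?_⟩
    have := hlev z hz
    rw [h s0 hs0]; omega
  have hup : ∀ m z y, z ∈ Rr → (∀ s ∈ S, G.dist s y = G.dist s z + m) → y ∈ Rr := by
    intro m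
    induction m with
    | zero =>
      intro z y hz h
      have : y = z := ext_S hG hS (fun s hs => by simpa using h s hs)
      rw [this]; exact hz
    | succ m ih =>
      intro z y hz h
      obtain ⟨y', hy'⟩ := hrail z hz m
      have h1 := ih z y' hz hy'
      refine hup1 y' y h1 (fun s hs => ?_)
      rw [h s hs, hy' s hs]; omega
  let W : Set V := {z | z ∈ Rr ∧ ¬ ∃ y ∈ Rr, ∀ s ∈ S, G.dist s z = G.dist s y + 1}
  have hmin : ∀ n, ∀ z ∈ Rr, G.dist s0 z = n → ∃ w ∈ W, ∃ k, ∀ s ∈ S,
      G.dist s z = G.dist s w + k := by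
    intro n
    induction n with
    | zero =>
      intro z hz h
      have := hlev z hz
      omega
    | succ n ih =>
      intro z hz h
      by_cases hzW : z ∈ W
      · exact ⟨z, hzW, 0, fun s _ => by simp⟩
      · have : ∃ y ∈ Rr, ∀ s ∈ S, G.dist s z = G.dist s y + 1 := by
          by_contra hcon; exact hzW ⟨hz, hcon⟩
        obtain ⟨y, hy, hyz⟩ := this
        have h1 := hyz s0 hs0
        obtain ⟨w, hw, k, hk⟩ := ih y hy (by omega)
        refine ⟨w, hw, k + 1, fun s hs => ?_⟩
        rw [hyz s hs, hk s hs]; omega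
  have hWR : ∀ z ∈ W, z ∈ Rr := fun z hz => hz.1
  have hWfin : W.Finite := by
    have hinj : Set.InjOn D W := by
      have aux : ∀ z z', z ∈ W → z' ∈ W → D z = D z' → G.dist s0 z ≤ G.dist s0 z' → z = z' := by
        intro z z' hz hz' hzz hle
        obtain ⟨m, hm⟩ := Nat.exists_eq_add_of_le hle
        have hall : ∀ s ∈ S, G.dist s z' = G.dist s z + m := by
          intro s hs
          have h1 := hD z ⟨s, hs⟩
          have h2 := hD z' ⟨s, hs⟩
          rw [hzz] at h1
          simp only at h1 h2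
          omega
        rcases Nat.eq_zero_or_pos m with h0 | h0
        · subst h0
          exact (ext_S hG hS (fun s hs => by simpa using hall s hs)).symm
        · exfalso
          obtain ⟨y, hy⟩ := hrail z (hWR z hz) (m - 1)
          have hyR := hup _ z y (hWR z hz) hy
          apply hz'.2
          refine ⟨y, hyR, fun s hs => ?_⟩
          rw [hall s hs, hy s hs]; omega
      intro z hz z' hz' hzz
      rcases le_total (G.dist s0 z) (G.dist s0 z') with h | h
      · exact aux z z' hz hz' hzz h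
      · exact (aux z' z hz' hz hzz.symm h).symm
    exact Set.Finite.of_finite_image (Set.toFinite _) hinj
  have hx0R : x0 ∈ Rr := ReflTransGen.refl
  have hWne : W.Nonempty := by
    obtain ⟨w, hw, _⟩ := hmin _ x0 hx0R rfl
    exact ⟨w, hw⟩
  have htr : ∀ a b, a ∈ Rr → b ∈ Rr → G.Adj a b → (∃ s ∈ S, G.dist s b = G.dist s a + 1) →
      Traversable G W a b := by
    rintro a b ha hb hab ⟨s, hs, hsab⟩
    obtain ⟨w, hw, k, hk⟩ := hmin _ a ha rfl
    exact trav_forward hG hS hw (hrail w (hWR w hw)) hk (hrail b hb) hab hs hsab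
  have htrans : ∀ a b, a ∈ Rr → ReflTransGen (FN G S s0 N) a b →
      ReflTransGen (Traversable G W) a b := by
    intro a b ha hab
    have : b ∈ Rr ∧ ReflTransGen (Traversable G W) a b := by
      induction hab with
      | refl => exact ⟨ha, ReflTransGen.refl⟩
      | @tail c d _ hcd ih =>
        have hd := hstep c d ih.1 hcd
        exact ⟨hd, ih.2.tail (htr c d ih.1 hd hcd.1 hcd.2.1)⟩
    exact this.2
  have hfar : ∀ t, Rail G S t → ∃ r ∈ Rr, ReflTransGen (Traversable G W) t r := by
    intro t ht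
    obtain ⟨x1, hx1⟩ := hrail x0 hx0R (2 * C)
    have hx1R := hup _ x0 x1 hx0R hx1
    obtain ⟨k, hk⟩ : ∃ k, ∀ s ∈ S, G.dist s x1 < k :=
      ⟨S.sup (fun s => G.dist s x1) + 1, fun s hs => by
        have : G.dist s x1 ≤ S.sup (fun s => G.dist s x1) :=
          Finset.le_sup (f := fun s => G.dist s x1) hs
        omega⟩
    choose rt hrt using ht
    refine ⟨rt k, ?_, ?_⟩
    · have hne1 : x1 ≠ rt k := by
        intro h
        have h1 := hk s0 hs0
        have h2 := hrt k s0 hs0
        rw [← h] at h2; omega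
      obtain ⟨s, hs, h1⟩ := hS _ _ hne1
      have hs' : s ∈ S := by simpa using hs
      have h2 := hk s hs'
      have h3 := hrt k s hs'
      have h4 : G.dist s (rt k) = G.dist s x1 + G.dist x1 (rt k) := by
        rcases h1 with h1 | h1 <;> omega
      refine geo_induct hG (fun a => a ∈ Rr) (rt k) _ x1 rfl h4 hx1R ?_
      intro a b ha hab hsab hle
      refine hstep a b ha ⟨hab, ⟨s, hs', hsab⟩, ?_⟩
      have h5 := hlevC s hs' b
      have h6 := hlevC s hs' x1
      have h7 := hx1 s0 hs0
      omega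
    · have : ∀ j, ReflTransGen (Traversable G W) t (rt j) := by
        intro j
        induction j with
        | zero =>
          have : rt 0 = t := ext_S hG hS (fun s hs => by simpa using hrt 0 s hs)
          rw [this]
        | succ j ih =>
          refine ih.tail (trav_rail hG hS hne (fun s hs => ?_))
          rw [hrt _ s hs, hrt _ s hs]; omega
      exact this k
  have hWray : ∀ R, IsWRay G W R → ∀ i, L0 < G.dist s0 (R i) := by
    intro R hR i
    obtain ⟨s, hs, hs'⟩ := ray_forward hG hS hR.1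
    have h1 := hs' i
    have h2 := hlevC s hs (R i)
    have h3 := hlevC s hs (R 0)
    have h4 := hlev _ (hWR _ hR.2)
    omega
  have hreach' : ∀ (a b : V) (_ : G.Walk a b), b ∈ Rr →
      ∃ r ∈ Rr, ReflTransGen (Traversable G W) a r := by
    intro a b p
    induction p with
    | nil => intro h; exact ⟨_, h, ReflTransGen.refl⟩
    | @cons a b _ hab q ih =>
      intro h
      by_cases ha : L0 ≤ G.dist s0 a
      · exact hfar a (hL0 a ha)
      · obtain ⟨r, hr, hbr⟩ := ih h
        refine ⟨r, hr, ReflTransGen.head ?_ hbr⟩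
        by_contra hcon
        obtain ⟨R, hR, i, hi, hi'⟩ := cross_of_not_trav hab hcon
        have := hWray R hR (i + 1)
        rw [hi'] at this
        omega
  have hreach : ∀ a, ∃ r ∈ Rr, ReflTransGen (Traversable G W) a r := by
    intro a
    obtain ⟨p⟩ := hG.preconnected a x0
    exact hreach' a x0 p hx0R
  refine ⟨W, hWfin, hWne, ?_⟩
  rintro a x y hax hxy ⟨s, hs, hsxy⟩
  by_cases htv : Traversable G W x y
  · exact hax.tail htv
  · obtain ⟨R, hR, i, hi, hi'⟩ := cross_of_not_trav hxy htv
    rcases alt with hA | hB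
    · exfalso
      obtain ⟨s', hs', hs''⟩ := ray_forward hG hS hR.1
      have hRR : ∀ j, R j ∈ Rr := by
        intro j
        induction j with
        | zero => exact hWR _ hR.2
        | succ j ih =>
          refine hstep _ _ ih ⟨hR.1.adj j, ⟨s', hs', ?_⟩, ?_⟩
          · have h1 := hs'' j
            have h2 := hs'' (j + 1)
            omega
          · have h1 := hlev _ ih
            have h2 := hA _ ih
            have h3 := hG.dist_triangle (u := s0) (v := R (j + 1)) (w := R j)
            have h4 : G.dist (R (j + 1)) (R j) = 1 := dist_eq_one_iff_adj.mpr (hR.1.adj j).symm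
            omega
      apply htv
      have hx := hRR (i + 1)
      have hy := hRR i
      rw [hi'] at hx
      rw [hi] at hy
      exact htr x y hx hy hxy ⟨s, hs, hsxy⟩
    · obtain ⟨r, hr, har⟩ := hreach a
      have h1 := htrans r x0 hr (hB r hr)
      have h2 := htrans x0 (R 0) hx0R (hWR _ hR.2)
      have h3 : ∀ j, ReflTransGen (Traversable G W) (R 0) (R j) := by
        intro j
        induction j with
        | zero => exact ReflTransGen.refl
        | succ j ih => exact ih.tail (trav_of_cross hR j)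
      have h4 := h3 i
      rw [hi] at h4
      exact ((har.trans h1).trans h2).trans h4

/-- the main construction -/
theorem exists_good {s0 : V} (hs0 : s0 ∈ S) :
    ∃ W : Set V, W.Finite ∧ W.Nonempty ∧ ∀ a x y, ReflTransGen (Traversable G W) a x →
      G.Adj x y → (∃ s ∈ S, G.dist s y = G.dist s x + 1) →
      ReflTransGen (Traversable G W) a y := by
  let C := S.sup (fun s => G.dist s s0)
  have hC : ∀ s ∈ S, G.dist s s0 ≤ C := fun s hs =>
    Finset.le_sup (f := fun s => G.dist s s0) hs
  obtain ⟨D, hD⟩ := exists_D (S := S) hG hC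
  obtain ⟨L0, hL0⟩ := exists_L0 hG hS hD
  obtain ⟨N, hN⟩ : ∃ N, N = L0 + 2 * C + 1 := ⟨_, rfl⟩
  by_cases hbig : ∃ x, N ≤ G.dist s0 x
  · by_cases hA : ∃ x0, N ≤ G.dist s0 x0 ∧
      ∀ z, ReflTransGen (FN G S s0 N) x0 z → G.dist s0 z ≠ N
    · obtain ⟨x0, hx0, hA⟩ := hA
      subst hN
      exact build hG hS hs0 hC hL0 hx0 (Or.inl hA)
    · push Not at hA
      let L := {x : V // G.dist s0 x = N}
      have hLfin : Finite L := by
        refine Finite.of_injective (fun x : L => D x.1) ?_
        intro x y hxy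
        exact Subtype.ext (D_inj hG hS hD hxy (x.2.trans y.2.symm))
      obtain ⟨x, hx⟩ := hbig
      obtain ⟨z, hz1, hz2⟩ := hA x hx
      have : Nonempty L := ⟨⟨z, hz2⟩⟩
      let reach : L → Set L := fun y => {y' | ReflTransGen (FN G S s0 N) y.1 y'.1}
      obtain ⟨y, hy⟩ := Finite.exists_min (fun y : L => (reach y).ncard)
      have hterm : ∀ y' : L, ReflTransGen (FN G S s0 N) y.1 y'.1 →
          ReflTransGen (FN G S s0 N) y'.1 y.1 := by
        intro y' hyy'
        have hsub : reach y' ⊆ reach y := fun y'' h => hyy'.trans h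
        have heq := Set.eq_of_subset_of_ncard_le hsub (hy y') (Set.toFinite _)
        have : y ∈ reach y' := by
          rw [heq]; exact ReflTransGen.refl
        exact this
      have hlev : ∀ z, ReflTransGen (FN G S s0 N) y.1 z → N ≤ G.dist s0 z := by
        intro z hz
        rcases ReflTransGen.cases_tail hz with h | ⟨c, _, h⟩
        · rw [h]; exact y.2.ge
        · exact h.2.2
      have hy0 := y.2.ge
      have hB : ∀ z, ReflTransGen (FN G S s0 N) y.1 z → ReflTransGen (FN G S s0 N) z y.1 := by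
        intro z hz
        obtain ⟨y', hy1, hy2⟩ := hA z (hlev z hz)
        exact hy1.trans (hterm ⟨y', hy2⟩ (hz.trans hy1))
      subst hN
      exact build hG hS hs0 hC hL0 hy0 (Or.inr hB)
  · push Not at hbig
    refine ⟨{s0}, Set.finite_singleton _, Set.singleton_nonempty _, ?_⟩
    rintro a x y hax hxy _
    by_cases htv : Traversable G {s0} x y
    · exact hax.tail htv
    · exfalso
      obtain ⟨R, hR, _⟩ := cross_of_not_trav hxy htv
      have h1 := hbig (R N)
      have h2 := hR.1.geo 0 N (Nat.zero_le _)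
      have h3 : R 0 = s0 := by simpa using hR.2
      rw [h3] at h2
      omega

theorem no_bad_pair : ∃ W : Set V, W.Finite ∧ W.Nonempty ∧ ∀ a b, ¬ BadPair G W a b := by
  classical
  by_cases hne : S.Nonempty
  · obtain ⟨s0, hs0⟩ := hne
    obtain ⟨W, hW1, hW2, hW3⟩ := exists_good hG hS hs0
    refine ⟨W, hW1, hW2, ?_⟩
    have key : ∀ a b, (∃ s ∈ S, G.dist s b = G.dist s a + G.dist a b) → HasPath G W a b := by
      rintro a b ⟨s, hs, h⟩
      apply hasPath_of
      refine geo_induct hG (fun z => ReflTransGen (Traversable G W) a z) b _ a rfl h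
        ReflTransGen.refl ?_
      intro x y hx hxy hsxy _
      exact hW3 a x y hx hxy ⟨s, hs, hsxy⟩
    rintro a b ⟨hab, h1, h2⟩
    obtain ⟨s, hs, h⟩ := hS a b hab
    have hs' : s ∈ S := by simpa using hs
    rcases h with h | h
    · exact h1 (key a b ⟨s, hs', h⟩)
    · exact h2 (key b a ⟨s, hs', h⟩)
  · rw [Finset.not_nonempty_iff_eq_empty] at hne
    subst hne
    obtain ⟨v⟩ := hG.nonempty
    refine ⟨{v}, Set.finite_singleton _, Set.singleton_nonempty _, ?_⟩
    rintro a b ⟨hab, _⟩
    obtain ⟨s, hs, _⟩ := hS a b hab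
    simp at hs

end main

/-- **MP_dec24c_co, Q1 (affirmative).**  Let `G` be a connected graph (finite or infinite) such
that for every nonempty finite `W ⊆ V(G)` the orientation `G_W` contains a bad pair.  Then
`β_S(G) = ∞`. -/
theorem result (V : Type u) (G : SimpleGraph V) (hG : G.Connected)
    (h : ∀ W : Set V, W.Finite → W.Nonempty → ∃ a b, BadPair G W a b) :
    strongMetricDim G = ⊤ := by
  rw [strongMetricDim, iInf_eq_top]
  rintro ⟨S, hS⟩
  show S.encard = ⊤
  rw [Set.encard_eq_top_iff]
  intro hfin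
  obtain ⟨S', rfl⟩ := hfin.exists_finset_coe
  obtain ⟨W, hW1, hW2, hW3⟩ := no_bad_pair hG hS
  obtain ⟨a, b, hab⟩ := h W hW1 hW2
  exact hW3 a b hab

end Pool.Agent.Results.MP_dec24c_co.BadPairs
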